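import Pool.Agent.helper35.MR.SpecA

/-! # Project mr, module R3A: generic minors of a pencil -/

set_option autoImplicit false

open Finset

namespace Pool.Agent.helper35.MR

open Pool.Agent.RRank

/-- the bordered minor identity in a domain -/
theorem R3A_id {R : Type} [CommRing R] [IsDomain R] {r : ℕ} (M : Matrix (Fin r) (Fin r) R)
    (B : Matrix (Fin r) Unit R) (C : Matrix Unit (Fin r) R) (D : Matrix Unit Unit R) (h0 : M.det ≠ 0)
    (h : (Matrix.fromBlocks M B C D).det = 0) :
    M.det * D () () = ∑ j, ∑ i, C () j * M.adjugate j i * B i () := by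
  have e : Matrix.fromBlocks M B C D * Matrix.fromBlocks M.adjugate (-(M.adjugate * B)) 0 (M.det • 1) =
      Matrix.fromBlocks (M.det • 1) 0 (C * M.adjugate) (M.det • D - C * M.adjugate * B) := by
    rw [Matrix.fromBlocks_multiply]
    congr 1
    · rw [Matrix.mul_zero, add_zero, Matrix.mul_adjugate]
    · rw [Matrix.mul_neg, ← Matrix.mul_assoc, Matrix.mul_adjugate]
      simp
    · rw [Matrix.mul_zero, add_zero]
    · rw [Matrix.mul_neg, ← Matrix.mul_assoc]
      simp only [Matrix.mul_smul, Matrix.mul_one]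
      abel
  have e2 := congrArg Matrix.det e
  rw [Matrix.det_mul, h, zero_mul, Matrix.det_fromBlocks_zero₁₂, Matrix.det_smul, Matrix.det_one, mul_one] at e2
  have e3 : (M.det • D - C * M.adjugate * B).det = 0 := by
    rcases mul_eq_zero.1 e2.symm with h1 | h1
    · exact absurd h1 (pow_ne_zero _ h0)
    · exact h1
  rw [Matrix.det_unique] at e3
  change M.det * D () () - (C * M.adjugate * B) () () = 0 at e3
  rw [sub_eq_zero.1 e3, Matrix.mul_apply]
  simp only [Matrix.mul_apply, Finset.sum_mul]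
  rw [Finset.sum_comm]

/-- a leading monomial -/
theorem R3A_lead {K Z : Type} [Field K] [LinearOrder Z] (P : MvPolynomial Z K) (hP : P ≠ 0) :
    ∃ m ∈ P.support, ∀ z z' : Z, z < z' → (m + Finsupp.single z 1 - Finsupp.single z' 1) ∉ P.support := by
  obtain ⟨m, hm, hmax⟩ := P.support.exists_max_image (fun m => toLex m)
    (MvPolynomial.support_nonempty.2 hP)
  refine ⟨m, hm, fun z z' hz h => ?_⟩
  have h1 := hmax _ h
  have h2 : toLex m < toLex (m + Finsupp.single z 1 - Finsupp.single z' 1) := by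
    rw [Finsupp.Lex.lt_iff]
    refine ⟨z, ?_, ?_⟩
    · intro j hj
      change m j = (m + Finsupp.single z 1 - Finsupp.single z' 1 : Z →₀ ℕ) j
      rw [Finsupp.tsub_apply, Finsupp.add_apply, Finsupp.single_eq_of_ne hj.ne,
        Finsupp.single_eq_of_ne (hj.trans hz).ne]
      simp
    · change m z < (m + Finsupp.single z 1 - Finsupp.single z' 1 : Z →₀ ℕ) z
      rw [Finsupp.tsub_apply, Finsupp.add_apply, Finsupp.single_eq_same,
        Finsupp.single_eq_of_ne hz.ne]
      omega
  exact absurd h1 (not_le.2 h2)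

/-- the degree of minors of the pencil -/
theorem R3A_deg {K X Y Z : Type} [Field K] [Fintype Z] (T : X → Y → Z → K) {r : ℕ} (i : Fin r → X) (j : Fin r → Y)
    {m : Z →₀ ℕ} (hm : m ∈ ((pencil T).submatrix i j).det.support) : m.support.card ≤ r := by
  have h1 : (m.sum fun _ e => e) ≤ ((pencil T).submatrix i j).det.totalDegree :=
    MvPolynomial.le_totalDegree hm
  have h2 : ((pencil T).submatrix i j).det.totalDegree ≤ r := by
    rw [Matrix.det_apply]
    apply MvPolynomial.totalDegree_finsetSum_le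
    intro σ _
    have h3 : (∏ k, ((pencil T).submatrix i j) (σ k) k).totalDegree ≤ r := by
      refine (MvPolynomial.totalDegree_finsetProd _ _).trans ?_
      calc _ ≤ ∑ k : Fin r, 1 := by
            apply Finset.sum_le_sum
            intro k _
            change (∑ z, MvPolynomial.C (T (i (σ k)) (j k) z) * MvPolynomial.X z).totalDegree ≤ 1
            apply MvPolynomial.totalDegree_finsetSum_le
            intro z _
            refine (MvPolynomial.totalDegree_mul _ _).trans ?_
            rw [MvPolynomial.totalDegree_C, MvPolynomial.totalDegree_X]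
        _ = r := by simp
    rcases Int.units_eq_one_or (Equiv.Perm.sign σ) with h | h
    · rw [h, one_smul]; exact h3
    · rw [h, Units.neg_smul, one_smul, MvPolynomial.totalDegree_neg]; exact h3
  have h4 : m.support.card ≤ (m.sum fun _ e => e) := by
    rw [Finsupp.sum, Finset.card_eq_sum_ones]
    apply Finset.sum_le_sum
    intro z hz
    exact Nat.one_le_iff_ne_zero.2 (Finsupp.mem_support_iff.1 hz)
  omega

/-- coefficients of products with two variables vanish off the support -/
theorem R3A_c0 {K Z : Type} [Field K] (Q : MvPolynomial Z K) (m : Z →₀ ℕ) (z z1 z2 : Z)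
    (h1 : z1 ∉ m.support) (h2 : z2 ∉ m.support) :
    MvPolynomial.coeff (m + Finsupp.single z 1) (Q * MvPolynomial.X z1 * MvPolynomial.X z2) = 0 := by
  classical
  rw [MvPolynomial.coeff_mul_X']
  split_ifs with h
  · have hz : z2 = z := by
      by_contra hne
      rw [Finsupp.mem_support_iff, Finsupp.add_apply, Finsupp.single_eq_of_ne hne, add_zero] at h
      exact h2 (Finsupp.mem_support_iff.2 h)
    rw [hz, add_tsub_cancel_right, MvPolynomial.coeff_mul_X', if_neg h1]
  · rfl

/-- the main identity of coefficients -/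
theorem R3A_coef {K X Y Z : Type} [Field K] [Fintype Z] (T : X → Y → Z → K) {r : ℕ} (I : Fin r → X)
    (J : Fin r → Y) (h0 : ((pencil T).submatrix I J).det ≠ 0)
    (h1 : ∀ (i : Fin (r + 1) → X) (j : Fin (r + 1) → Y), ((pencil T).submatrix i j).det = 0)
    (x : X) (y : Y) (m : Z →₀ ℕ) :
    ∑ z, T x y z * MvPolynomial.coeff m (((pencil T).submatrix I J).det * MvPolynomial.X z) =
    ∑ j, ∑ i, ∑ z1, ∑ z2, T x (J j) z1 * T (I i) y z2 *
      MvPolynomial.coeff m (((pencil T).submatrix I J).adjugate j i * MvPolynomial.X z1 *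
        MvPolynomial.X z2) := by
  have e : Fin (r + 1) ≃ Fin r ⊕ Unit :=
    Fintype.equivOfCardEq (by simp)
  have hb : (Matrix.fromBlocks ((pencil T).submatrix I J) ((pencil T).submatrix I (fun _ : Unit => y))
      ((pencil T).submatrix (fun _ : Unit => x) J)
      ((pencil T).submatrix (fun _ : Unit => x) (fun _ : Unit => y))).det = 0 := by
    have h2 := h1 ((Sum.elim I (fun _ : Unit => x)) ∘ e) ((Sum.elim J (fun _ : Unit => y)) ∘ e)
    rw [← Matrix.submatrix_submatrix, Matrix.det_submatrix_equiv_self] at h2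
    rw [← h2]
    congr 1
    ext a b
    rcases a with a | a <;> rcases b with b | b <;> rfl
  have hid := R3A_id _ _ _ _ h0 hb
  have hc := congrArg (MvPolynomial.coeff m) hid
  have hL : MvPolynomial.coeff m (((pencil T).submatrix I J).det *
      ((pencil T).submatrix (fun _ : Unit => x) (fun _ : Unit => y)) () ()) =
      ∑ z, T x y z * MvPolynomial.coeff m (((pencil T).submatrix I J).det * MvPolynomial.X z) := by
    change MvPolynomial.coeff m (((pencil T).submatrix I J).det *
      ∑ z, MvPolynomial.C (T x y z) * MvPolynomial.X z) = _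
    rw [Finset.mul_sum, MvPolynomial.coeff_sum]
    refine Finset.sum_congr rfl fun z _ => ?_
    rw [mul_left_comm, MvPolynomial.coeff_C_mul]
  rw [hL] at hc
  rw [hc, MvPolynomial.coeff_sum]
  refine Finset.sum_congr rfl fun j _ => ?_
  rw [MvPolynomial.coeff_sum]
  refine Finset.sum_congr rfl fun i _ => ?_
  change MvPolynomial.coeff m ((∑ z, MvPolynomial.C (T x (J j) z) * MvPolynomial.X z) *
    ((pencil T).submatrix I J).adjugate j i *
    (∑ z, MvPolynomial.C (T (I i) y z) * MvPolynomial.X z)) = _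
  rw [Finset.sum_mul, Finset.sum_mul, MvPolynomial.coeff_sum]
  refine Finset.sum_congr rfl fun z1 _ => ?_
  rw [Finset.mul_sum, MvPolynomial.coeff_sum]
  refine Finset.sum_congr rfl fun z2 _ => ?_
  have e1 : MvPolynomial.C (T x (J j) z1) * MvPolynomial.X z1 * ((pencil T).submatrix I J).adjugate j i *
      (MvPolynomial.C (T (I i) y z2) * MvPolynomial.X z2) =
      MvPolynomial.C (T x (J j) z1 * T (I i) y z2) * (((pencil T).submatrix I J).adjugate j i *
        MvPolynomial.X z1 * MvPolynomial.X z2) := by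
    rw [MvPolynomial.C_mul]
    ring
  rw [e1, MvPolynomial.coeff_C_mul]

/-- splitting a double sum -/
theorem R3A_split {K Z : Type} [Field K] [Fintype Z] [DecidableEq Z] (S : Finset Z) (f : Z → Z → K)
    (h : ∀ z1 z2, z1 ∉ S → z2 ∉ S → f z1 z2 = 0) :
    ∑ z1, ∑ z2, f z1 z2 = ∑ z1 : S, ∑ z2, f z1 z2 + ∑ z2 : S, ∑ z1, (if z1 ∈ S then 0 else f z1 z2) := by
  have e1 : ∑ z1 : S, ∑ z2, f z1 z2 = ∑ z1, ∑ z2, (if z1 ∈ S then f z1 z2 else 0) := by
    rw [Finset.sum_coe_sort S (fun z1 => ∑ z2, f z1 z2)]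
    rw [← Finset.sum_filter_add_sum_filter_not univ (fun z1 => z1 ∈ S)
      (fun z1 => ∑ z2, (if z1 ∈ S then f z1 z2 else 0))]
    have e3 : ∑ z1 ∈ univ.filter (fun z1 => ¬ z1 ∈ S), ∑ z2, (if z1 ∈ S then f z1 z2 else 0) = 0 := by
      refine Finset.sum_eq_zero fun z1 hz1 => Finset.sum_eq_zero fun z2 _ => ?_
      rw [if_neg (Finset.mem_filter.1 hz1).2]
    rw [e3, add_zero]
    have e4 : univ.filter (fun z1 => z1 ∈ S) = S := by
      ext z; simp
    rw [e4]
    refine Finset.sum_congr rfl fun z1 hz1 => Finset.sum_congr rfl fun z2 _ => ?_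
    rw [if_pos hz1]
  have e2 : ∑ z2 : S, ∑ z1, (if z1 ∈ S then 0 else f z1 z2) = ∑ z1, ∑ z2, (if z1 ∈ S then 0 else f z1 z2) := by
    rw [Finset.sum_coe_sort S (fun z2 => ∑ z1, (if z1 ∈ S then 0 else f z1 z2))]
    rw [Finset.sum_comm (s := univ) (t := univ)]
    rw [← Finset.sum_filter_add_sum_filter_not univ (fun z2 => z2 ∈ S)
      (fun z2 => ∑ z1, (if z1 ∈ S then 0 else f z1 z2))]
    have e3 : ∑ z2 ∈ univ.filter (fun z2 => ¬ z2 ∈ S), ∑ z1, (if z1 ∈ S then 0 else f z1 z2) = 0 := by
      refine Finset.sum_eq_zero fun z2 hz2 => Finset.sum_eq_zero fun z1 _ => ?_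
      split_ifs with h1
      · rfl
      · exact h z1 z2 h1 (Finset.mem_filter.1 hz2).2
    rw [e3, add_zero]
    have e4 : univ.filter (fun z1 => z1 ∈ S) = S := by
      ext z; simp
    rw [e4]
  rw [e1, e2, ← Finset.sum_add_distrib]
  refine Finset.sum_congr rfl fun z1 _ => ?_
  rw [← Finset.sum_add_distrib]
  refine Finset.sum_congr rfl fun z2 _ => ?_
  split_ifs <;> simp

theorem R3A_main {K X Y Z : Type} [Field K] [Fintype Z] [LinearOrder Z] (T : X → Y → Z → K) {r : ℕ}
    (I : Fin r → X) (J : Fin r → Y) (h0 : ((pencil T).submatrix I J).det ≠ 0)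
    (h1 : ∀ (i : Fin (r + 1) → X) (j : Fin (r + 1) → Y), ((pencil T).submatrix i j).det = 0) :
    ∃ (S : Finset Z), S.card ≤ r ∧ ∃ (b : Fin r → S → Y → Z → K) (b' : Fin r → S → X → Z → K),
    ∀ x y z, T x y z = ∑ j, ∑ z1 : S, T x (J j) z1 * b j z1 y z +
      ∑ i, ∑ z2 : S, T (I i) y z2 * b' i z2 x z := by
  obtain ⟨m, hm, hlead⟩ := R3A_lead _ h0
  set P := ((pencil T).submatrix I J).det with hP
  set L : Matrix Z Z K := Matrix.of fun z z' =>
    MvPolynomial.coeff (m + Finsupp.single z 1) (P * MvPolynomial.X z') with hL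
  have hLd : ∀ z, L z z = MvPolynomial.coeff m P := by
    intro z
    change MvPolynomial.coeff (m + Finsupp.single z 1) (P * MvPolynomial.X z) = _
    rw [MvPolynomial.coeff_mul_X]
  have hLt : ∀ z z', z < z' → L z z' = 0 := by
    intro z z' hz
    change MvPolynomial.coeff (m + Finsupp.single z 1) (P * MvPolynomial.X z') = _
    rw [MvPolynomial.coeff_mul_X']
    split_ifs with h
    · exact MvPolynomial.notMem_support_iff.1 (hlead z z' hz)
    · rfl
  have hdet : L.det ≠ 0 := by
    rw [Matrix.det_of_isLowerTriangular L]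
    · rw [Finset.prod_congr rfl (fun z _ => hLd z)]
      simp only [Finset.prod_const]
      exact pow_ne_zero _ (MvPolynomial.mem_support_iff.1 hm)
    · intro z z' hz
      exact hLt z z' hz
  set c : Fin r → Fin r → Z → Z → Z → K := fun j i z1 z2 z =>
    MvPolynomial.coeff (m + Finsupp.single z 1) (((pencil T).submatrix I J).adjugate j i *
      MvPolynomial.X z1 * MvPolynomial.X z2) with hc
  set G : Fin r → Fin r → Z → Z → Z → K := fun j i z1 z2 z => ∑ z', L⁻¹ z z' * c j i z1 z2 z' with hG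
  have hG0 : ∀ j i z1 z2 z, z1 ∉ m.support → z2 ∉ m.support → G j i z1 z2 z = 0 := by
    intro j i z1 z2 z hz1 hz2
    refine Finset.sum_eq_zero fun z' _ => ?_
    rw [hc]
    simp only
    rw [R3A_c0 _ _ _ _ _ hz1 hz2, mul_zero]
  have hmain : ∀ x y z, T x y z = ∑ j, ∑ i, ∑ z1, ∑ z2, T x (J j) z1 * T (I i) y z2 * G j i z1 z2 z := by
    intro x y z
    have h2 : L.mulVec (T x y) = fun z' => ∑ j, ∑ i, ∑ z1, ∑ z2, T x (J j) z1 * T (I i) y z2 *
        c j i z1 z2 z' := by
      funext z'
      rw [← R3A_coef T I J h0 h1 x y (m + Finsupp.single z' 1)]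
      change ∑ z, L z' z * T x y z = _
      refine Finset.sum_congr rfl fun z _ => ?_
      rw [mul_comm]
      rfl
    have h3 : T x y = L⁻¹.mulVec (L.mulVec (T x y)) := by
      rw [Matrix.mulVec_mulVec, Matrix.nonsing_inv_mul _ (isUnit_iff_ne_zero.2 hdet), Matrix.one_mulVec]
    rw [h2] at h3
    have h4 := congrFun h3 z
    rw [h4]
    change ∑ z', L⁻¹ z z' * ∑ j, ∑ i, ∑ z1, ∑ z2, T x (J j) z1 * T (I i) y z2 * c j i z1 z2 z' = _
    simp only [hG, Finset.mul_sum]
    rw [Finset.sum_comm]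
    refine Finset.sum_congr rfl fun j _ => ?_
    rw [Finset.sum_comm]
    refine Finset.sum_congr rfl fun i _ => ?_
    rw [Finset.sum_comm]
    refine Finset.sum_congr rfl fun z1 _ => ?_
    rw [Finset.sum_comm]
    refine Finset.sum_congr rfl fun z2 _ => ?_
    refine Finset.sum_congr rfl fun z' _ => ?_
    ring
  refine ⟨m.support, R3A_deg T I J hm,
    fun j z1 y z => ∑ i, ∑ z2, T (I i) y z2 * G j i z1 z2 z,
    fun i z2 x z => ∑ j, ∑ z1, (if z1 ∈ m.support then 0 else T x (J j) z1 * G j i z1 z2 z), ?_⟩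
  intro x y z
  rw [hmain x y z]
  have h5 : ∀ j i, ∑ z1, ∑ z2, T x (J j) z1 * T (I i) y z2 * G j i z1 z2 z =
      ∑ z1 : m.support, ∑ z2, T x (J j) z1 * T (I i) y z2 * G j i z1 z2 z +
      ∑ z2 : m.support, ∑ z1, (if z1 ∈ m.support then 0 else T x (J j) z1 * T (I i) y z2 * G j i z1 z2 z) := by
    intro j i
    apply R3A_split m.support
    intro z1 z2 hz1 hz2
    rw [hG0 j i z1 z2 z hz1 hz2, mul_zero]
  simp only [h5, Finset.sum_add_distrib]
  congr 1
  · refine Finset.sum_congr rfl fun j _ => ?_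
    rw [Finset.sum_comm]
    refine Finset.sum_congr rfl fun z1 _ => ?_
    rw [Finset.mul_sum]
    refine Finset.sum_congr rfl fun i _ => ?_
    rw [Finset.mul_sum]
    refine Finset.sum_congr rfl fun z2 _ => ?_
    ring
  · rw [Finset.sum_comm]
    refine Finset.sum_congr rfl fun i _ => ?_
    rw [Finset.sum_comm]
    refine Finset.sum_congr rfl fun z2 _ => ?_
    rw [Finset.mul_sum]
    refine Finset.sum_congr rfl fun j _ => ?_
    rw [Finset.mul_sum]
    refine Finset.sum_congr rfl fun z1 _ => ?_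
    split_ifs
    · rw [mul_zero]
    · ring

theorem R3A : R3A_stmt := by
  intro K X Y Z _ _ _ _ T l hl
  classical
  letI : LinearOrder Z := LinearOrder.lift' (Fintype.equivFin Z) (Fintype.equivFin Z).injective
  -- the rank
  have hex : ∃ k : ℕ, ∀ (i : Fin k → X) (j : Fin k → Y), ((pencil T).submatrix i j).det = 0 := ⟨l, hl⟩
  have hk := Nat.find_spec hex
  have hkl : Nat.find hex ≤ l := Nat.find_min' hex hl
  have hk0 : Nat.find hex ≠ 0 := by
    intro h
    rw [h] at hk
    have := hk Fin.elim0 Fin.elim0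
    rw [Matrix.det_isEmpty] at this
    exact one_ne_zero this
  obtain ⟨r, hr⟩ := Nat.exists_eq_succ_of_ne_zero hk0
  have hr1 : ¬ ∀ (i : Fin r → X) (j : Fin r → Y), ((pencil T).submatrix i j).det = 0 :=
    Nat.find_min hex (by omega)
  push Not at hr1
  obtain ⟨I, J, h0⟩ := hr1
  rw [hr] at hk
  obtain ⟨S, hS, b, b', h⟩ := R3A_main T I J h0 hk
  have e : (Fin r × S) ≃ Fin (Fintype.card (Fin r × S)) := Fintype.equivFin _
  refine ⟨Fintype.card (Fin r × S), Fintype.card (Fin r × S),
    fun n x => T x (J (e.symm n).1) (e.symm n).2,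
    fun n y z => b (e.symm n).1 (e.symm n).2 y z,
    fun n y => T (I (e.symm n).1) y (e.symm n).2,
    fun n x z => b' (e.symm n).1 (e.symm n).2 x z, ?_, ?_⟩
  · rw [Fintype.card_prod, Fintype.card_fin, Fintype.card_coe]
    have : r ≤ l := by omega
    nlinarith [Nat.mul_le_mul_left r hS, Nat.mul_le_mul this this]
  · intro x y z
    rw [h x y z]
    congr 1
    · rw [Equiv.sum_comp e.symm (fun p : Fin r × S => T x (J p.1) p.2 * b p.1 p.2 y z)]
      rw [Fintype.sum_prod_type]
    · rw [Equiv.sum_comp e.symm (fun p : Fin r × S => T (I p.1) y p.2 * b' p.1 p.2 x z)]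
      rw [Fintype.sum_prod_type]

end Pool.Agent.helper35.MR
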