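import Pool.Agent.helper35.MR.SpecB

/-! # Project mr, RG: regions (helper82) -/

set_option autoImplicit false

open Finset

namespace Pool.Agent.helper35.MR

open Pool.Agent.RRank

/-- representatives of the orderings -/
def RG_p : Ordering → ℤ
  | .lt => 1
  | .eq => 1
  | .gt => 2

/-- representatives of the orderings -/
def RG_q : Ordering → ℤ
  | .lt => 2
  | .eq => 1
  | .gt => 1

theorem RG_pq (b c : ℤ) : (b < c ↔ RG_p (cmp b c) < RG_q (cmp b c)) ∧
    (c < b ↔ RG_q (cmp b c) < RG_p (cmp b c)) ∧ 1 ≤ RG_p (cmp b c) ∧ RG_p (cmp b c) ≤ 2 ∧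
    1 ≤ RG_q (cmp b c) ∧ RG_q (cmp b c) ≤ 2 := by
  rcases lt_trichotomy b c with h | h | h
  · rw [(cmp_eq_lt_iff _ _).2 h]
    simp only [RG_p, RG_q]
    omega
  · rw [(cmp_eq_eq_iff _ _).2 h]
    simp only [RG_p, RG_q]
    omega
  · rw [(cmp_eq_gt_iff _ _).2 h]
    simp only [RG_p, RG_q]
    omega

theorem RG_low (a b c : ℤ) (h1 : a < b) (h2 : a < c) :
    SameOT ![a, a, b, c] ![0, 0, RG_p (cmp b c), RG_q (cmp b c)] := by
  obtain ⟨k1, k2, k3, k4, k5, k6⟩ := RG_pq b c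
  intro α β
  fin_cases α <;> fin_cases β <;> simp <;> omega

theorem RG_high (a b c : ℤ) (h1 : a < c) (h2 : b < c) :
    SameOT ![a, b, c, c] ![RG_p (cmp a b), RG_q (cmp a b), 3, 3] := by
  obtain ⟨k1, k2, k3, k4, k5, k6⟩ := RG_pq a b
  intro α β
  fin_cases α <;> fin_cases β <;> simp <;> omega

theorem RG (hW : W4_stmt) : RG_stmt := by
  intro K _ V hV F G H hF hadd l hl
  obtain ⟨g, hg1, hg2, hg⟩ := hF
  have g0 : ∀ a b c d : ℤ, b < c → b < d →
      g 0 ![a, b, c, d] = g 0 ![0, 0, RG_p (cmp c d), RG_q (cmp c d)] := by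
    intro a b c d h3 h4
    have e1 : g 0 ![a, b, c, d] = g 0 ![b, b, c, d] := hg2 0 _ _ (fun β hβ => by
      fin_cases β
      · exact absurd rfl hβ
      · rfl
      · rfl
      · rfl)
    rw [e1]
    exact hg1 0 _ _ (RG_low b c d h3 h4)
  have g1 : ∀ a b c d : ℤ, a < c → a < d →
      g 1 ![a, b, c, d] = g 1 ![0, 0, RG_p (cmp c d), RG_q (cmp c d)] := by
    intro a b c d h3 h4
    have e1 : g 1 ![a, b, c, d] = g 1 ![a, a, c, d] := hg2 1 _ _ (fun β hβ => by
      fin_cases β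
      · rfl
      · exact absurd rfl hβ
      · rfl
      · rfl)
    rw [e1]
    exact hg1 1 _ _ (RG_low a c d h3 h4)
  have g2 : ∀ a b c d : ℤ, a < d → b < d →
      g 2 ![a, b, c, d] = g 2 ![RG_p (cmp a b), RG_q (cmp a b), 3, 3] := by
    intro a b c d h3 h4
    have e1 : g 2 ![a, b, c, d] = g 2 ![a, b, d, d] := hg2 2 _ _ (fun β hβ => by
      fin_cases β
      · rfl
      · rfl
      · exact absurd rfl hβ
      · rfl)
    rw [e1]
    exact hg1 2 _ _ (RG_high a b d h3 h4)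
  have g3 : ∀ a b c d : ℤ, a < c → b < c →
      g 3 ![a, b, c, d] = g 3 ![RG_p (cmp a b), RG_q (cmp a b), 3, 3] := by
    intro a b c d h3 h4
    have e1 : g 3 ![a, b, c, d] = g 3 ![a, b, c, c] := hg2 3 _ _ (fun β hβ => by
      fin_cases β
      · rfl
      · rfl
      · rfl
      · exact absurd rfl hβ)
    rw [e1]
    exact hg1 3 _ _ (RG_high a b c h3 h4)
  set A : Ordering → K := fun r => g 2 ![RG_p r, RG_q r, 3, 3] + g 3 ![RG_p r, RG_q r, 3, 3] +
    G .lt .lt + H .lt .lt with hA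
  set B : Ordering → K := fun s => g 0 ![0, 0, RG_p s, RG_q s] + g 1 ![0, 0, RG_p s, RG_q s] with hB
  set F' : Ordering → Ordering → K := fun r s => F r s + A r + B s with hF'
  have key : ∀ a b c d : ℤ, a < c → a < d → b < c → b < d →
      V ![a, b, c, d] = F' (cmp a b) (cmp c d) := by
    intro a b c d h1 h2 h3 h4
    have e := hg ![a, b, c, d]
    rw [Fin.sum_univ_four, g0 a b c d h3 h4, g1 a b c d h1 h2, g2 a b c d h2 h4, g3 a b c d h1 h3] at e
    change V ![a, b, c, d] - F (cmp a b) (cmp c d) - G (cmp a c) (cmp b d) - H (cmp a d) (cmp b c) = _ at e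
    rw [(cmp_eq_lt_iff _ _).2 h1, (cmp_eq_lt_iff _ _).2 h2, (cmp_eq_lt_iff _ _).2 h3, (cmp_eq_lt_iff _ _).2 h4] at e
    simp only [hF', hA, hB]
    linear_combination e
  have hadd' : ¬ Add2 F' := by
    rintro ⟨a, b, hab⟩
    apply hadd
    refine ⟨fun r => a r - A r, fun s => b s - B s, fun r s => ?_⟩
    have := hab r s
    simp only [hF'] at this
    linear_combination this
  obtain ⟨x, y, z, w, hfull⟩ := hW K F' hadd' l hl
  have m1 : StrictMono (fun i : Fin (2 * l) => ((i : ℕ) : ℤ)) := by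
    intro i j hij
    have : (i : ℕ) < (j : ℕ) := hij
    simpa using this
  have m2 : StrictMono (fun i : Fin (2 * l) => ((2 * l + (i : ℕ) : ℕ) : ℤ)) := by
    intro i j hij
    have : (i : ℕ) < (j : ℕ) := hij
    show ((2 * l + (i : ℕ) : ℕ) : ℤ) < ((2 * l + (j : ℕ) : ℕ) : ℤ)
    omega
  refine ⟨fun i => ⟨(x i : ℕ), by have := (x i).2; omega⟩, fun i => ⟨(y i : ℕ), by have := (y i).2; omega⟩,
    fun i => ⟨2 * l + (z i : ℕ), by have := (z i).2; omega⟩,
    fun i => ⟨2 * l + (w i : ℕ), by have := (w i).2; omega⟩, ?_⟩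
  have e : (fun i j k m : Fin l => F' (cmp (x i) (y j)) (cmp (z k) (w m))) = fun i j k m : Fin l =>
      V ![(((x i : ℕ) : ℕ) : ℤ), (((y j : ℕ) : ℕ) : ℤ), ((2 * l + (z k : ℕ) : ℕ) : ℤ),
        ((2 * l + (w m : ℕ) : ℕ) : ℤ)] := by
    funext i j k m
    have hx := (x i).2
    have hy := (y j).2
    rw [key _ _ _ _ (by omega) (by omega) (by omega) (by omega), ← m1.cmp_map_eq (x i) (y j),
      ← m2.cmp_map_eq (z k) (w m)]
  rw [e] at hfull
  exact hfull

end Pool.Agent.helper35.MR
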