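import Pool.Agent.helper35.MR.SpecB

/-! # Project mr, RG3: the three pairings (helper82) -/

set_option autoImplicit false

open Finset

namespace Pool.Agent.helper35.MR

open Pool.Agent.RRank

theorem RG3_cmp {x y : Fin 4 → ℤ} (h : SameOT x y) (i j : Fin 4) : cmp (x i) (x j) = cmp (y i) (y j) := by
  have h1 := h i j
  have h2 := h j i
  unfold cmp cmpUsing
  simp only [h1, h2]

theorem RG3_low_perm {K : Type} [Field K] (L : (Fin 4 → ℤ) → K) (e : Equiv.Perm (Fin 4)) (h : Low L) :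
    Low (fun x => L (fun i => x (e i))) := by
  obtain ⟨g, h1, h2, h3⟩ := h
  refine ⟨fun α x => g (e.symm α) (fun i => x (e i)), fun α x y hxy => h1 _ _ _ (fun i j => hxy (e i) (e j)),
    fun α x y hxy => h2 _ _ _ (fun i hi => hxy (e i) (fun h' => hi (by rw [← h', Equiv.symm_apply_apply]))),
    fun x => ?_⟩
  show L (fun i => x (e i)) = ∑ α, g (e.symm α) (fun i => x (e i))
  rw [h3]
  exact (Equiv.sum_comp e.symm (fun β => g β (fun i => x (e i)))).symm

theorem RG3_swap (a b : ℤ) : cmp a b = (cmp b a).swap := (cmp_swap b a).symm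

theorem RG3_full_a {K ι : Type} [Field K] [Fintype ι] (M N : ι → ι → ι → ι → K)
    (h : ∀ i j k m, M i j k m = N i k j m) (hM : Full4 M) : Full4 N := by
  intro U₁ U₂ U₃ U₄ hU
  obtain ⟨u, hu, v, hv, w, hw, q, hq, hne⟩ := hM U₁ U₃ U₂ U₄ (by omega)
  refine ⟨u, hu, w, hw, v, hv, q, hq, fun h0 => hne ?_⟩
  rw [← h0]
  unfold ev4
  refine Finset.sum_congr rfl fun i _ => ?_
  rw [Finset.sum_comm]
  refine Finset.sum_congr rfl fun k _ => Finset.sum_congr rfl fun j _ => Finset.sum_congr rfl fun m _ => ?_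
  rw [h]
  ring

theorem RG3_full_b {K ι : Type} [Field K] [Fintype ι] (M N : ι → ι → ι → ι → K)
    (h : ∀ i j k m, M i j k m = N i k m j) (hM : Full4 M) : Full4 N := by
  intro U₁ U₂ U₃ U₄ hU
  obtain ⟨u, hu, v, hv, w, hw, q, hq, hne⟩ := hM U₁ U₄ U₂ U₃ (by omega)
  refine ⟨u, hu, w, hw, q, hq, v, hv, fun h0 => hne ?_⟩
  rw [← h0]
  unfold ev4
  refine Finset.sum_congr rfl fun i _ => ?_
  rw [Finset.sum_comm]
  refine Finset.sum_congr rfl fun k _ => ?_
  rw [Finset.sum_comm]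
  refine Finset.sum_congr rfl fun m _ => Finset.sum_congr rfl fun j _ => ?_
  rw [h]
  ring

theorem RG3_add {K : Type} [Field K] (V : (Fin 4 → ℤ) → K) (F G H : Ordering → Ordering → K)
    (h : Form4 V F G H) (hF : Add2 F) (hG : Add2 G) (hH : Add2 H) : Low V := by
  obtain ⟨g, h1, h2, h3⟩ := h
  obtain ⟨a, b, hab⟩ := hF
  obtain ⟨a', b', hab'⟩ := hG
  obtain ⟨a'', b'', hab''⟩ := hH
  refine ⟨![fun x => g 0 x + b (cmp (x 2) (x 3)) + b' (cmp (x 1) (x 3)) + b'' (cmp (x 1) (x 2)),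
    fun x => g 1 x + a' (cmp (x 0) (x 2)) + a'' (cmp (x 0) (x 3)),
    fun x => g 2 x + a (cmp (x 0) (x 1)), fun x => g 3 x], ?_, ?_, ?_⟩
  · intro α
    fin_cases α
    · intro x y hxy
      show g 0 x + b (cmp (x 2) (x 3)) + b' (cmp (x 1) (x 3)) + b'' (cmp (x 1) (x 2)) =
        g 0 y + b (cmp (y 2) (y 3)) + b' (cmp (y 1) (y 3)) + b'' (cmp (y 1) (y 2))
      rw [h1 0 x y hxy, RG3_cmp hxy 2 3, RG3_cmp hxy 1 3, RG3_cmp hxy 1 2]
    · intro x y hxy
      show g 1 x + a' (cmp (x 0) (x 2)) + a'' (cmp (x 0) (x 3)) =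
        g 1 y + a' (cmp (y 0) (y 2)) + a'' (cmp (y 0) (y 3))
      rw [h1 1 x y hxy, RG3_cmp hxy 0 2, RG3_cmp hxy 0 3]
    · intro x y hxy
      show g 2 x + a (cmp (x 0) (x 1)) = g 2 y + a (cmp (y 0) (y 1))
      rw [h1 2 x y hxy, RG3_cmp hxy 0 1]
    · exact h1 3
  · intro α x y hxy
    fin_cases α
    · show g 0 x + b (cmp (x 2) (x 3)) + b' (cmp (x 1) (x 3)) + b'' (cmp (x 1) (x 2)) =
        g 0 y + b (cmp (y 2) (y 3)) + b' (cmp (y 1) (y 3)) + b'' (cmp (y 1) (y 2))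
      have e1 : x 1 = y 1 := hxy 1 (by decide)
      have e2 : x 2 = y 2 := hxy 2 (by decide)
      have e3 : x 3 = y 3 := hxy 3 (by decide)
      rw [h2 0 x y hxy, e1, e2, e3]
    · show g 1 x + a' (cmp (x 0) (x 2)) + a'' (cmp (x 0) (x 3)) =
        g 1 y + a' (cmp (y 0) (y 2)) + a'' (cmp (y 0) (y 3))
      have e1 : x 0 = y 0 := hxy 0 (by decide)
      have e2 : x 2 = y 2 := hxy 2 (by decide)
      have e3 : x 3 = y 3 := hxy 3 (by decide)
      rw [h2 1 x y hxy, e1, e2, e3]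
    · show g 2 x + a (cmp (x 0) (x 1)) = g 2 y + a (cmp (y 0) (y 1))
      have e1 : x 0 = y 0 := hxy 0 (by decide)
      have e2 : x 1 = y 1 := hxy 1 (by decide)
      rw [h2 2 x y hxy, e1, e2]
    · exact h2 3 x y hxy
  · intro x
    have e := h3 x
    rw [Fin.sum_univ_four] at e ⊢
    show V x = (g 0 x + b (cmp (x 2) (x 3)) + b' (cmp (x 1) (x 3)) + b'' (cmp (x 1) (x 2))) +
      (g 1 x + a' (cmp (x 0) (x 2)) + a'' (cmp (x 0) (x 3))) + (g 2 x + a (cmp (x 0) (x 1))) + g 3 x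
    simp only [hab, hab', hab''] at e
    linear_combination e

theorem RG3 (hRG : RG_stmt) : RG3_stmt := by
  intro K _ V hV F G H hform hlow l hl
  by_cases hF : Add2 F
  · by_cases hG : Add2 G
    · have hH : ¬ Add2 H := fun hH => hlow (RG3_add V F G H hform hF hG hH)
      -- the third pairing
      have hperm := RG3_low_perm _ (Equiv.swap (1 : Fin 4) 2 * Equiv.swap (2 : Fin 4) 3) hform
      have eV : ∀ x : Fin 4 → ℤ, (fun i => x ((Equiv.swap (1 : Fin 4) 2 * Equiv.swap (2 : Fin 4) 3) i)) =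
          ![x 0, x 2, x 3, x 1] := by
        intro x
        funext i
        fin_cases i <;> rfl
      have hV' : OT (fun x : Fin 4 → ℤ => V ![x 0, x 2, x 3, x 1]) := by
        intro x y hxy
        show V ![x 0, x 2, x 3, x 1] = V ![y 0, y 2, y 3, y 1]
        rw [← eV x, ← eV y]
        exact hV _ _ (fun i j => hxy _ _)
      have hform' : Form4 (fun x : Fin 4 → ℤ => V ![x 0, x 2, x 3, x 1]) H (fun r s => F r s.swap)
          (fun r s => G r s.swap) := by
        unfold Form4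
        have e : (fun x : Fin 4 → ℤ => V ![x 0, x 2, x 3, x 1] - H (cmp (x 0) (x 1)) (cmp (x 2) (x 3)) -
            F (cmp (x 0) (x 2)) (cmp (x 1) (x 3)).swap - G (cmp (x 0) (x 3)) (cmp (x 1) (x 2)).swap) =
            fun x : Fin 4 → ℤ => (fun x => V x - F (cmp (x 0) (x 1)) (cmp (x 2) (x 3)) -
              G (cmp (x 0) (x 2)) (cmp (x 1) (x 3)) - H (cmp (x 0) (x 3)) (cmp (x 1) (x 2)))
              (fun i => x ((Equiv.swap (1 : Fin 4) 2 * Equiv.swap (2 : Fin 4) 3) i)) := by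
          funext x
          rw [eV x]
          show _ = V ![x 0, x 2, x 3, x 1] - F (cmp (x 0) (x 2)) (cmp (x 3) (x 1)) -
              G (cmp (x 0) (x 3)) (cmp (x 2) (x 1)) - H (cmp (x 0) (x 1)) (cmp (x 2) (x 3))
          rw [RG3_swap (x 3) (x 1), RG3_swap (x 2) (x 1)]
          ring
        rw [e]
        exact hperm
      obtain ⟨x, y, z, w, hfull⟩ := hRG K _ hV' H _ _ hform' hH l hl
      exact ⟨x, z, w, y, RG3_full_b _ _ (fun i j k m => rfl) hfull⟩
    · have hperm := RG3_low_perm _ (Equiv.swap (1 : Fin 4) 2) hform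
      have eV : ∀ x : Fin 4 → ℤ, (fun i => x ((Equiv.swap (1 : Fin 4) 2) i)) = ![x 0, x 2, x 1, x 3] := by
        intro x
        funext i
        fin_cases i <;> rfl
      have hV' : OT (fun x : Fin 4 → ℤ => V ![x 0, x 2, x 1, x 3]) := by
        intro x y hxy
        show V ![x 0, x 2, x 1, x 3] = V ![y 0, y 2, y 1, y 3]
        rw [← eV x, ← eV y]
        exact hV _ _ (fun i j => hxy _ _)
      have hform' : Form4 (fun x : Fin 4 → ℤ => V ![x 0, x 2, x 1, x 3]) G F (fun r s => H r s.swap) := by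
        unfold Form4
        have e : (fun x : Fin 4 → ℤ => V ![x 0, x 2, x 1, x 3] - G (cmp (x 0) (x 1)) (cmp (x 2) (x 3)) -
            F (cmp (x 0) (x 2)) (cmp (x 1) (x 3)) - H (cmp (x 0) (x 3)) (cmp (x 1) (x 2)).swap) =
            fun x : Fin 4 → ℤ => (fun x => V x - F (cmp (x 0) (x 1)) (cmp (x 2) (x 3)) -
              G (cmp (x 0) (x 2)) (cmp (x 1) (x 3)) - H (cmp (x 0) (x 3)) (cmp (x 1) (x 2)))
              (fun i => x ((Equiv.swap (1 : Fin 4) 2) i)) := by
          funext x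
          rw [eV x]
          show _ = V ![x 0, x 2, x 1, x 3] - F (cmp (x 0) (x 2)) (cmp (x 1) (x 3)) -
              G (cmp (x 0) (x 1)) (cmp (x 2) (x 3)) - H (cmp (x 0) (x 3)) (cmp (x 2) (x 1))
          rw [RG3_swap (x 2) (x 1)]
          ring
        rw [e]
        exact hperm
      obtain ⟨x, y, z, w, hfull⟩ := hRG K _ hV' G _ _ hform' hG l hl
      exact ⟨x, z, y, w, RG3_full_a _ _ (fun i j k m => rfl) hfull⟩
  · exact hRG K V hV F G H hform hF l hl

end Pool.Agent.helper35.MR
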